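import Pool.Agent.Q42.SZ.LArith
import Pool.Agent.Q42.SZ.LBij
import Pool.Agent.Q42.SZ.LChr
import Pool.Agent.Q42.SZ.LCls
import Pool.Agent.Q42.SZ.LCom
import Pool.Agent.Q42.SZ.LConv
import Pool.Agent.Q42.SZ.LDeg
import Pool.Agent.Q42.SZ.LFin
import Pool.Agent.Q42.SZ.LHS
import Pool.Agent.Q42.SZ.LHS2
import Pool.Agent.Q42.SZ.LKh
import Pool.Agent.Q42.SZ.LLink
import Pool.Agent.Q42.SZ.LMem
import Pool.Agent.Q42.SZ.LMix
import Pool.Agent.Q42.SZ.LNon
import Pool.Agent.Q42.SZ.LNorm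
import Pool.Agent.Q42.SZ.LNw
import Pool.Agent.Q42.SZ.LNz
import Pool.Agent.Q42.SZ.LOmg
import Pool.Agent.Q42.SZ.LPars
import Pool.Agent.Q42.SZ.LPars2
import Pool.Agent.Q42.SZ.LPart
import Pool.Agent.Q42.SZ.LReg
import Pool.Agent.Q42.SZ.LSet
import Pool.Agent.Q42.SZ.LSpA
import Pool.Agent.Q42.SZ.LSpB
import Pool.Agent.Q42.SZ.LSpC
import Pool.Agent.Q42.SZ.LSpec
import Pool.Agent.Q42.SZ.LSym
import Pool.Agent.Q42.SZ.LThree
import Pool.Agent.Q42.SZ.LTriv
import Pool.Agent.Q42.SZ.LTwo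
import Pool.Agent.Q42.SZ.LUt

namespace Pool.Agent.Results.MP_c2cbdb_al.SuzukiThreeUt

open Pool.Agent.Q42.SZ

theorem mem' : TMem := tMem tNz tNw
theorem two' : TTwo := tTwo mem'
theorem link' : TLink := tLink mem' two'
theorem cls' : TCls := tCls tBij
theorem three' : TThree := tThree cls' tNz
theorem deg' : TDeg := tDeg cls'
theorem hs' : THS := tHS cls' tBij tSet
theorem hs2' : THS2 := tHS2 hs' tKh
theorem sym' : TSym := tSym tKh
theorem com' : TCom := tCom tKh
theorem omg' : TOmg := tOmg tBij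
theorem spec' : TSpec := tSpec tSpA tSpB tSpC
theorem non' : TNon := tNon sym' com' omg' hs2' spec' tArith three'
theorem triv' : TTriv := tTriv cls' tArith three'
theorem norm' : TNorm := tNorm non' triv' tConv (tPars2 tPars) tChr
theorem mix' : TMix := tMix tReg norm' deg' three'
theorem part' : TPart := tPart mix' link' two'
theorem ut' : TUt := tUt part'

/-- For `q = 2^(2m+1)`, `m ≥ 1`, and any field `F` with `q` elements, the Suzuki group
`Sz(q)`, acting on the `q^2 + 1` points `Om F` of the Suzuki-Tits ovoid, has the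
`3`-universal transversal property. -/
theorem result (m : ℕ) (hm : 1 ≤ m) (F : Type) [Field F] [Fintype F] [CharP F 2]
    (hF : Fintype.card F = 2 ^ (2 * m + 1)) :
    UT 3 (Sz (iterateFrobenius F 2 (m + 1))) :=
  tFin ut' m hm F hF

end Pool.Agent.Results.MP_c2cbdb_al.SuzukiThreeUt
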